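import Mathlib
import Pool.Agent.Helper26.Abc2.Roots
import Pool.Agent.Helper94.Abc.Basic

set_option autoImplicit false

/-! # ABC-PF: the pair fibre -/

namespace Pool.Agent.Helper92.ABC

open Finset

/-- the class of a pair modulo `m` -/
theorem exists_class {m A B : ℕ} (hm : 1 ≤ m) (hB : B.Coprime m) :
    ∃ x : ℕ, x < m ∧ (m : ℤ) ∣ (x : ℤ) * B - A := by
  have h1 : IsCoprime (B : ℤ) (m : ℤ) := Nat.isCoprime_iff_coprime.2 hB
  obtain ⟨a, b, hab⟩ := h1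
  have hm' : (0 : ℤ) < m := by exact_mod_cast hm
  have h2 : 0 ≤ ((A : ℤ) * a) % m := Int.emod_nonneg _ hm'.ne'
  have h3 : ((A : ℤ) * a) % m < m := Int.emod_lt_of_pos _ hm'
  refine ⟨(((A : ℤ) * a) % m).toNat, ?_, ?_⟩
  · omega
  · rw [Int.toNat_of_nonneg h2]
    have h4 : ((A : ℤ) * a) % m = (A : ℤ) * a - m * ((A : ℤ) * a / m) := by
      have := Int.mul_ediv_add_emod ((A : ℤ) * a) m
      linarith
    rw [h4]
    refine ⟨-(A : ℤ) * b - ((A : ℤ) * a / m) * B, ?_⟩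
    have h5 : (A : ℤ) * (a * B + b * m) = A := by rw [hab, mul_one]
    linear_combination h5

/-- two coprime pairs with the same slope are equal -/
theorem eq_of_slope {A B A' B' : ℕ} (hA : 0 < A) (hA' : 0 < A')
    (h : A.Coprime B) (h' : A'.Coprime B') (he : A * B' = A' * B) : A = A' ∧ B = B' := by
  have h1 : A ∣ A' := by
    have : A ∣ A' * B := ⟨B', he.symm⟩
    exact h.dvd_of_dvd_mul_right this
  have h2 : A' ∣ A := by
    have : A' ∣ A * B' := ⟨B, he⟩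
    exact h'.dvd_of_dvd_mul_right this
  have h3 : A = A' := Nat.dvd_antisymm h1 h2
  subst h3
  exact ⟨rfl, (Nat.eq_of_mul_eq_mul_left hA he).symm⟩

theorem pair_fiber (j : ℕ) (hj : 1 ≤ j) (ε : ℝ) (hε : 0 < ε) :
    ∃ C : ℝ, 0 < C ∧ ∀ (m : ℕ) (u v : ℤ) (A0 A1 B1 : ℝ) (F : Finset (ℕ × ℕ)),
      1 ≤ m → IsCoprime u (m : ℤ) → IsCoprime v (m : ℤ) → 1 ≤ A0 → 1 ≤ A1 → 1 ≤ B1 →
      (∀ P ∈ F, 0 < P.1 ∧ 0 < P.2 ∧ P.1.Coprime P.2 ∧ P.1.Coprime m ∧ P.2.Coprime m ∧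
        A0 ≤ (P.1 : ℝ) ∧ (P.1 : ℝ) ≤ A1 ∧ (P.2 : ℝ) ≤ B1 ∧
        (m : ℤ) ∣ u * (P.1 : ℤ) ^ j - v * (P.2 : ℤ) ^ j) →
      (F.card : ℝ) ≤ C * (m : ℝ) ^ ε * (1 + B1 * A1 ^ 2 / (A0 * m)) := by
  classical
  obtain ⟨C, hC0, hC⟩ := Pool.Agent.Helper26.Abc2.card_roots_int hj hε
  refine ⟨C, hC0, ?_⟩
  intro m u v A0 A1 B1 F hm hu hv hA0 hA1 hB1 hF
  have hm0 : (0 : ℝ) < m := by exact_mod_cast hm
  have hA0' : 0 < A0 := lt_of_lt_of_le one_pos hA0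
  have hA1' : 0 < A1 := lt_of_lt_of_le one_pos hA1
  have hB1' : 0 < B1 := lt_of_lt_of_le one_pos hB1
  -- the inverse of `u`
  obtain ⟨a, b, hab⟩ := hu
  have ha : IsCoprime a (m : ℤ) := ⟨u, b, by rw [mul_comm u a]; exact hab⟩
  set w : ℤ := v * a with hw
  have hwm : IsCoprime w (m : ℤ) := hv.mul_left ha
  -- classes
  have hex : ∀ P : ℕ × ℕ, ∃ x : ℕ, P ∈ F → x < m ∧ (m : ℤ) ∣ (x : ℤ) * P.2 - P.1 := by
    intro P
    by_cases hP : P ∈ F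
    · obtain ⟨x, hx⟩ := exists_class (A := P.1) hm (hF P hP).2.2.2.2.1
      exact ⟨x, fun _ => hx⟩
    · exact ⟨0, fun h => absurd h hP⟩
  choose f hf using hex
  set T : Finset ℕ := (Finset.range m).filter (fun x : ℕ => (m : ℤ) ∣ (x : ℤ) ^ j - w) with hT
  have hfT : ∀ P ∈ F, f P ∈ T := by
    intro P hP
    obtain ⟨h1, h2⟩ := hf P hP
    obtain ⟨-, -, -, -, hB, -, -, -, hd⟩ := hF P hP
    rw [hT, Finset.mem_filter, Finset.mem_range]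
    refine ⟨h1, ?_⟩
    have hBm : IsCoprime (m : ℤ) ((P.2 : ℤ) ^ j) :=
      (Nat.isCoprime_iff_coprime.2 hB).symm.pow_right
    have h3 : (m : ℤ) ∣ ((f P : ℤ) * P.2) ^ j - (P.1 : ℤ) ^ j :=
      h2.trans (sub_dvd_pow_sub_pow _ _ j)
    refine hBm.dvd_of_dvd_mul_right ?_
    have h4 : ((f P : ℤ) ^ j - w) * (P.2 : ℤ) ^ j =
        (((f P : ℤ) * P.2) ^ j - (P.1 : ℤ) ^ j) + a * (u * (P.1 : ℤ) ^ j - v * (P.2 : ℤ) ^ j) +
          m * (b * (P.1 : ℤ) ^ j) := by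
      rw [mul_pow, hw]
      linear_combination (-(P.1 : ℤ) ^ j) * hab
    rw [h4]
    exact dvd_add (dvd_add h3 (hd.mul_left a)) (dvd_mul_right _ _)
  -- fibres
  have hfib : ∀ x ∈ T, ((F.filter (fun P => f P = x)).card : ℝ) ≤ 1 + B1 * A1 ^ 2 / (A0 * m) := by
    intro x hx
    have hG : 0 < (m : ℝ) / A1 ^ 2 := by positivity
    have h1 := Pool.Agent.Helper94.Abc.gap_card (F.filter (fun P => f P = x))
      (fun P : ℕ × ℕ => (P.2 : ℝ) / P.1) (u := 0) (v := B1 / A0) (G := (m : ℝ) / A1 ^ 2) hG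
      (by positivity) ?_ ?_
    · refine h1.trans (le_of_eq ?_)
      congr 1
      field_simp
      ring
    · intro P hP
      obtain ⟨hPF, -⟩ := Finset.mem_filter.1 hP
      obtain ⟨hp1, hp2, -, -, -, h3, h4, h5, -⟩ := hF P hPF
      refine ⟨by positivity, ?_⟩
      exact div_le_div₀ hB1'.le h5 hA0' h3
    · intro P hP Q hQ hne
      obtain ⟨hPF, hPx⟩ := Finset.mem_filter.1 hP
      obtain ⟨hQF, hQx⟩ := Finset.mem_filter.1 hQ
      obtain ⟨hp1, hp2, hp3, -, -, -, hp4, -, -⟩ := hF P hPF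
      obtain ⟨hq1, hq2, hq3, -, -, -, hq4, -, -⟩ := hF Q hQF
      have h3 := (hf P hPF).2
      have h4 := (hf Q hQF).2
      rw [hPx] at h3
      rw [hQx] at h4
      have h5 : (m : ℤ) ∣ (P.2 : ℤ) * Q.1 - (Q.2 : ℤ) * P.1 := by
        have h6 : (P.2 : ℤ) * Q.1 - (Q.2 : ℤ) * P.1 =
            Q.2 * ((x : ℤ) * P.2 - P.1) - P.2 * ((x : ℤ) * Q.2 - Q.1) := by ring
        rw [h6]
        exact dvd_sub (h3.mul_left _) (h4.mul_left _)
      have h6 : (P.2 : ℤ) * Q.1 - (Q.2 : ℤ) * P.1 ≠ 0 := by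
        intro h0
        have h7 : P.1 * Q.2 = Q.1 * P.2 := by
          have : (P.1 : ℤ) * Q.2 = Q.1 * P.2 := by linarith
          exact_mod_cast this
        obtain ⟨h8, h9⟩ := eq_of_slope hp1 hq1 hp3 hq3 h7
        exact hne (Prod.ext h8 h9)
      have h7 : (m : ℤ) ≤ |(P.2 : ℤ) * Q.1 - (Q.2 : ℤ) * P.1| :=
        Int.le_of_dvd (abs_pos.2 h6) ((dvd_abs _ _).2 h5)
      have h8 : (m : ℝ) ≤ |(P.2 : ℝ) * Q.1 - (Q.2 : ℝ) * P.1| := by exact_mod_cast h7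
      have hP1 : (0 : ℝ) < P.1 := by exact_mod_cast hp1
      have hQ1 : (0 : ℝ) < Q.1 := by exact_mod_cast hq1
      have h9 : (P.2 : ℝ) / P.1 - (Q.2 : ℝ) / Q.1 =
          ((P.2 : ℝ) * Q.1 - (Q.2 : ℝ) * P.1) / (P.1 * Q.1) := by
        field_simp
      rw [h9, abs_div, abs_of_pos (mul_pos hP1 hQ1)]
      refine div_le_div₀ (abs_nonneg _) h8 (mul_pos hP1 hQ1) ?_
      rw [sq]
      exact mul_le_mul hp4 hq4 hQ1.le hA1'.le
  have h1 := Finset.card_eq_sum_card_fiberwise hfT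
  have h2 : (F.card : ℝ) = ∑ x ∈ T, ((F.filter (fun P => f P = x)).card : ℝ) := by
    rw [h1]
    push_cast
    rfl
  rw [h2]
  have h3 : (0 : ℝ) ≤ 1 + B1 * A1 ^ 2 / (A0 * m) := by positivity
  calc ∑ x ∈ T, ((F.filter (fun P => f P = x)).card : ℝ)
      ≤ ∑ _x ∈ T, (1 + B1 * A1 ^ 2 / (A0 * m)) := Finset.sum_le_sum hfib
    _ = (T.card : ℝ) * (1 + B1 * A1 ^ 2 / (A0 * m)) := by
        rw [Finset.sum_const, nsmul_eq_mul]
    _ ≤ C * (m : ℝ) ^ ε * (1 + B1 * A1 ^ 2 / (A0 * m)) :=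
        mul_le_mul_of_nonneg_right (hC m w hm hwm) h3

end Pool.Agent.Helper92.ABC
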